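import Pool.Agent.Lib.helper10.H10

set_option linter.unusedSectionVars false
set_option linter.dupNamespace false

namespace Pool.Agent.H.MP_eb4995_an

open MeasureTheory Filter Topology Set Metric Pool.Agent.Lib.helper10.H10
open scoped ENNReal NNReal

theorem fact4 : Fact (1 ≤ ((4 : ℝ≥0) : ℝ≥0∞)) := ⟨by norm_num⟩
theorem fact6 : Fact (1 ≤ ((6 : ℝ≥0) : ℝ≥0∞)) := ⟨by norm_num⟩
theorem fact2 : Fact (1 ≤ ((2 : ℝ≥0) : ℝ≥0∞)) := ⟨by norm_num⟩

attribute [local instance] fact4 fact6 fact2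

noncomputable abbrev L4 := Lp ℝ ((4 : ℝ≥0) : ℝ≥0∞) (volume : Measure (E 3))

variable {Ω : Set (E 3)} {φ ψ : E 3 → ℝ} {l : ℝ}

lemma L4_norm (f : L4) : ‖f‖ ^ 4 = ∫ x, f x ^ 4 :=
  norm_pow_even (by norm_num) (by decide) (by norm_num) f

def Ineq (Ω : Set (E 3)) (l : ℝ) : Prop := ∀ φ, Test Ω φ → l ^ 2 * ∫ x, φ x ^ 4 ≤ Dt φ ^ 2

lemma intk (h : Test Ω φ) {k : ℕ} (hk : k ≠ 0) : Integrable fun x => φ x ^ k :=
  ((continuous_pow k).comp h.cont).integrable_of_hasCompactSupport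
    (h.2.1.comp_left (g := fun t : ℝ => t ^ k) (by simp [hk]))

lemma int4 (h : Test Ω φ) : Integrable fun x => φ x ^ 4 := intk h (by norm_num)

lemma intD (h : Test Ω φ) : Integrable fun x => ‖fderiv ℝ φ x‖ ^ 2 :=
  (h.memLp_fderiv 2).norm.integrable_sq

lemma Ineq.sqrt (h : Ineq Ω l) (hl : 0 ≤ l) (hφ : Test Ω φ) : l * √(∫ x, φ x ^ 4) ≤ Dt φ := by
  have h0 : 0 ≤ ∫ x, φ x ^ 4 := integral_nonneg fun x => by positivity
  rw [← sq_le_sq₀ (by positivity) (Dt_nonneg φ), mul_pow, Real.sq_sqrt h0]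
  exact h φ hφ

variable {J : Hs Ω →L[ℝ] L4}

lemma J_sq (hJ : ∀ p, J p =ᵐ[volume] p.1.1) (h : Test Ω φ) :
    ‖J (pair h)‖ ^ 2 = √(∫ x, φ x ^ 4) := by
  have : ∫ x, φ x ^ 4 = (‖J (pair h)‖ ^ 2) ^ 2 := by
    rw [← pow_mul, L4_norm]
    refine integral_congr_ae ?_
    filter_upwards [hJ (pair h), pair_fst h] with x h1 h2
    rw [h1, h2]
  rw [this, Real.sqrt_sq (by positivity)]

lemma cont_snd : Continuous fun p : Hs Ω => ‖p.1.2‖ ^ 2 := by fun_prop

lemma Ineq.H (h : Ineq Ω l) (hl : 0 ≤ l) (hJ : ∀ p, J p =ᵐ[volume] p.1.1) (p : Hs Ω) :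
    l * ‖J p‖ ^ 2 ≤ ‖p.1.2‖ ^ 2 := by
  refine dense_le (f := fun p => l * ‖J p‖ ^ 2) (by fun_prop) cont_snd (fun φ hφ => ?_) p
  simp only [J_sq hJ, pair_norm_snd]
  exact h.sqrt hl hφ

noncomputable def G (δ t : ℝ) : ℝ := (t + √(t ^ 2 + δ ^ 2) - δ) / 2

lemma G_smooth {δ : ℝ} (hδ : 0 < δ) : ContDiff ℝ (⊤ : ℕ∞) (G δ) := by
  unfold G
  refine ((contDiff_id.add (ContDiff.sqrt (by fun_prop) fun t => ?_)).sub contDiff_const).div_const 2
  positivity

lemma G_zero {δ : ℝ} (hδ : 0 < δ) : G δ 0 = 0 := by simp [G, Real.sqrt_sq hδ.le]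

lemma G_deriv {δ : ℝ} (hδ : 0 < δ) (t : ℝ) :
    HasDerivAt (G δ) ((1 + t / √(t ^ 2 + δ ^ 2)) / 2) t := by
  have h1 : HasDerivAt (fun t : ℝ => t ^ 2 + δ ^ 2) (2 * t) t := by
    simpa using (hasDerivAt_pow 2 t).add_const (δ ^ 2)
  have h2 := h1.sqrt (by positivity)
  refine ((((hasDerivAt_id t).add h2).sub_const δ).div_const 2).congr_deriv ?_
  field_simp

lemma G_abs {δ : ℝ} (hδ : 0 < δ) (t : ℝ) : |G δ t| ≤ |t| := by
  have h1 : δ ≤ √(t ^ 2 + δ ^ 2) := Real.le_sqrt_of_sq_le (by nlinarith)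
  have h2 : √(t ^ 2 + δ ^ 2) ≤ |t| + δ :=
    Real.sqrt_le_iff.2 ⟨by positivity, by nlinarith [sq_abs t, abs_nonneg t]⟩
  unfold G
  rw [abs_le]
  constructor <;> linarith [le_abs_self t, neg_abs_le t, abs_nonneg t]

lemma G_tendsto (t : ℝ) : Tendsto (fun n : ℕ => G (1 / (n + 1)) t) atTop (𝓝 (max t 0)) := by
  have h1 : Continuous fun δ => G δ t := by unfold G; fun_prop
  have h2 := (h1.tendsto 0).comp tendsto_one_div_add_atTop_nhds_zero_nat
  have h3 : G 0 t = max t 0 := by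
    unfold G
    rw [show t ^ 2 + 0 ^ 2 = t ^ 2 by ring, Real.sqrt_sq_eq_abs]
    rcases le_total t 0 with h | h
    · rw [abs_of_nonpos h, max_eq_right h]; ring
    · rw [abs_of_nonneg h, max_eq_left h]; ring
  rwa [h3] at h2

lemma G_int (h : Test Ω φ) : Tendsto (fun n : ℕ => ∫ x, (G (1 / (n + 1)) ∘ φ) x ^ 4) atTop
    (𝓝 (∫ x, max (φ x) 0 ^ 4)) := by
  refine tendsto_integral_of_dominated_convergence (fun x => φ x ^ 4) (fun n => ?_) (int4 h)
    (fun n => Eventually.of_forall fun x => ?_) (Eventually.of_forall fun x => (G_tendsto _).pow 4)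
  · exact (((G_smooth (by positivity)).continuous.comp h.cont).pow 4).aestronglyMeasurable
  · rw [Real.norm_eq_abs, abs_pow, ← (by decide : Even 4).pow_abs (φ x)]
    exact pow_le_pow_left₀ (abs_nonneg _) (G_abs (δ := 1 / (n + 1)) (by positivity) _) 4

lemma G_Dt (h : Test Ω φ) {δ : ℝ} (hδ : 0 < δ) :
    Dt (G δ ∘ φ) + Dt (G δ ∘ ((-1 : ℝ) • φ)) ≤ Dt φ := by
  have h' := h.smul (-1)
  unfold Dt
  rw [← integral_add (intD (h.comp (G_smooth hδ) (G_zero hδ)))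
    (intD (h'.comp (G_smooth hδ) (G_zero hδ)))]
  refine integral_mono ((intD (h.comp (G_smooth hδ) (G_zero hδ))).add
    (intD (h'.comp (G_smooth hδ) (G_zero hδ)))) (intD h) fun x => ?_
  have e1 := ((G_deriv hδ (φ x)).comp_hasFDerivAt x (h.diff x).hasFDerivAt).fderiv
  have e2 := ((G_deriv hδ (((-1 : ℝ) • φ) x)).comp_hasFDerivAt x (h'.diff x).hasFDerivAt).fderiv
  simp only
  rw [e1, e2, fderiv_const_smul (h.diff x)]
  simp only [norm_smul, mul_pow, Real.norm_eq_abs, sq_abs, Pi.smul_apply, smul_eq_mul,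
    neg_one_mul, neg_sq, one_pow, one_mul]
  set s := φ x / √(φ x ^ 2 + δ ^ 2) with hs
  have h1 : s ^ 2 ≤ 1 := by
    rw [hs, div_pow, Real.sq_sqrt (by positivity), div_le_one (by positivity)]
    nlinarith
  rw [neg_div, ← hs]
  nlinarith [sq_nonneg ‖fderiv ℝ φ x‖]

lemma Ineq.split (h : Ineq Ω l) (hl : 0 ≤ l) (hJ : ∀ p, J p =ᵐ[volume] p.1.1) (p : Hs Ω) :
    l * (‖Lp.posPart (J p)‖ ^ 2 + ‖Lp.posPart (J (-p))‖ ^ 2) ≤ ‖p.1.2‖ ^ 2 := by
  have hc : Continuous fun f : L4 => Lp.posPart f := Lp.continuous_posPart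
  refine dense_le (f := fun p => l * (‖Lp.posPart (J p)‖ ^ 2 + ‖Lp.posPart (J (-p))‖ ^ 2))
    (by fun_prop) cont_snd (fun φ hφ => ?_) p
  have key : ∀ (f : L4) (g : E 3 → ℝ), f =ᵐ[volume] g →
      ‖Lp.posPart f‖ ^ 2 = √(∫ x, max (g x) 0 ^ 4) := by
    intro f g hfg
    have : ∫ x, max (g x) 0 ^ 4 = (‖Lp.posPart f‖ ^ 2) ^ 2 := by
      rw [← pow_mul, L4_norm]
      refine integral_congr_ae ?_
      filter_upwards [Lp.coeFn_posPart f, hfg] with x h1 h2
      rw [h1, h2]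
    rw [this, Real.sqrt_sq (by positivity)]
  have hφ' := hφ.smul (-1)
  rw [key _ φ ((hJ _).trans (pair_fst hφ)), key _ ((-1 : ℝ) • φ), pair_norm_snd]
  · refine le_of_tendsto' (((G_int hφ).sqrt.add (G_int hφ').sqrt).const_mul l) fun n => ?_
    have hδ : (0 : ℝ) < 1 / (n + 1) := by positivity
    have a1 := h.sqrt hl (hφ.comp (G_smooth hδ) (G_zero hδ))
    have a2 := h.sqrt hl (hφ'.comp (G_smooth hδ) (G_zero hδ))
    have a3 := G_Dt hφ hδ
    linarith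
  · rw [map_neg]
    filter_upwards [Lp.coeFn_neg (J (pair hφ)), hJ (pair hφ), pair_fst hφ] with x h1 h2 h3
    rw [h1, Pi.neg_apply, h2, h3]; simp

lemma normalize (h : Test Ω φ) (h0 : ∫ x, φ x ^ 4 ≠ 0) :
    ∃ c : ℝ, c ^ 4 * ∫ x, φ x ^ 4 = 1 ∧ ∫ x, (c • φ) x ^ 4 = 1 ∧ Dt (c • φ) = c ^ 2 * Dt φ := by
  have h1 : 0 < ∫ x, φ x ^ 4 := lt_of_le_of_ne (integral_nonneg fun x => by positivity) h0.symm
  have h2 : (√√(∫ x, φ x ^ 4)⁻¹) ^ 4 * ∫ x, φ x ^ 4 = 1 := by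
    rw [show (4 : ℕ) = 2 * 2 from rfl, pow_mul, Real.sq_sqrt (Real.sqrt_nonneg _),
      Real.sq_sqrt (by positivity)]
    exact inv_mul_cancel₀ h0
  refine ⟨_, h2, ?_, Dt_smul h _⟩
  simp only [Pi.smul_apply, smul_eq_mul, mul_pow]
  rw [integral_const_mul, h2]

lemma pair_sub (h : Test Ω φ) (h' : Test Ω ψ) (x : Hs Ω) (hx : x = pair h - pair h') :
    x.1.1 =ᵐ[volume] fun y => φ y - ψ y := by
  subst hx
  filter_upwards [Lp.coeFn_sub (pair h).1.1 (pair h').1.1, pair_fst h, pair_fst h'] with y a b c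
  change ((pair h).1.1 - (pair h').1.1 : Lp ℝ 2 _) y = _
  rw [a, Pi.sub_apply, b, c]

theorem minimizer (hΩ : Bornology.IsBounded Ω) (hJ : ∀ p, J p =ᵐ[volume] p.1.1)
    (hne : ∃ φ, Test Ω φ ∧ ∫ x, φ x ^ 4 ≠ 0) :
    ∃ l > 0, Ineq Ω l ∧ ∃ p : Hs Ω, ‖J p‖ = 1 ∧ ‖p.1.2‖ ^ 2 = l := by
  set S := {d | ∃ φ, Test Ω φ ∧ ∫ x, φ x ^ 4 = 1 ∧ d = Dt φ} with hS
  have hS1 : S.Nonempty := by
    obtain ⟨φ, h, h0⟩ := hne
    obtain ⟨c, -, h2, -⟩ := normalize h h0
    exact ⟨_, c • φ, h.smul c, h2, rfl⟩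
  have hS2 : BddBelow S := ⟨0, by rintro _ ⟨φ, -, -, rfl⟩; exact Dt_nonneg φ⟩
  set l := sInf S with hl
  have hl0 : 0 ≤ l := le_csInf hS1 (by rintro _ ⟨φ, -, -, rfl⟩; exact Dt_nonneg φ)
  have hI : Ineq Ω l := by
    intro φ h
    by_cases h0 : ∫ x, φ x ^ 4 = 0
    · rw [h0, mul_zero]; positivity
    · obtain ⟨c, h1, h2, h3⟩ := normalize h h0
      have h4 : l ≤ c ^ 2 * Dt φ := csInf_le hS2 ⟨c • φ, h.smul c, h2, h3.symm⟩
      have h5 : 0 ≤ ∫ x, φ x ^ 4 := integral_nonneg fun x => by positivity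
      calc l ^ 2 * ∫ x, φ x ^ 4 ≤ (c ^ 2 * Dt φ) ^ 2 * ∫ x, φ x ^ 4 := by gcongr
        _ = Dt φ ^ 2 * (c ^ 4 * ∫ x, φ x ^ 4) := by ring
        _ = _ := by rw [h1, mul_one]
  obtain ⟨u, hu1, hu2, hu3⟩ := exists_seq_tendsto_sInf hS1 hS2
  choose φ hφ h4 hD using hu3
  obtain ⟨J2, C2, hJ2, hC2⟩ := exists_J (N := 3) (by norm_num) hΩ 2 (by norm_num)
  obtain ⟨J6, C6, hJ6, hC6⟩ := exists_J (N := 3) (by norm_num) hΩ 6 (by norm_num)
  have hn : ∀ n, ‖(pair (hφ n)).1.2‖ ^ 2 ≤ u 0 := fun n => by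
    rw [pair_norm_snd, ← hD]; exact hu1 (Nat.zero_le n)
  have hu0 : 0 ≤ u 0 := le_trans (sq_nonneg _) (hn 0)
  have hP : ∀ p : Hs Ω, ‖p.1.1‖ ^ 2 ≤ C2 ^ 2 * ‖p.1.2‖ ^ 2 := by
    intro p
    have e : ‖p.1.1‖ = ‖J2 p‖ := by
      rw [Lp.norm_def, Lp.norm_def, eLpNorm_congr_ae (hJ2 p)]; rfl
    rw [e, ← mul_pow]
    gcongr
    exact hC2 p
  obtain ⟨κ, hκ, hR⟩ := Pool.Agent.Lib.helper10.Rellich.rellich volume hΩ (fun n => (hφ n).c1)
    (fun n => subset_closure.trans (hφ n).2.2) (C := (C2 ^ 2 + 1) * u 0)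
    (fun n => by
      rw [← pair_norm_fst (hφ n)]
      nlinarith [hP (pair (hφ n)), hn n, sq_nonneg C2])
    (fun n => by
      have := hn n
      rw [pair_norm_snd] at this
      change Dt (φ n) ≤ _
      nlinarith [sq_nonneg C2])
  set P : ℕ → Hs Ω := fun n => pair (hφ (κ n)) with hPd
  have hJ1 : ∀ n, ‖J (P n)‖ = 1 := by
    intro n
    have := J_sq hJ (hφ (κ n))
    rw [h4, Real.sqrt_one] at this
    exact (pow_eq_one_iff_of_nonneg (norm_nonneg _) two_ne_zero).1 this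
  have hsub : ∀ n m, ‖(P n - P m).1.2‖ ^ 2 ≤ 4 * u 0 := by
    intro n m
    have a := norm_sub_le (P n).1.2 (P m).1.2
    have b := hn (κ n)
    have c := hn (κ m)
    change ‖(P n).1.2 - (P m).1.2‖ ^ 2 ≤ _
    have d : ‖(P n).1.2 - (P m).1.2‖ ^ 2 ≤ (‖(P n).1.2‖ + ‖(P m).1.2‖) ^ 2 := by gcongr
    nlinarith [sq_nonneg (‖(P n).1.2‖ - ‖(P m).1.2‖)]
  set K := (C6 ^ 2 * (4 * u 0)) ^ 3 with hK
  have hK0 : 0 ≤ K := by positivity
  have t4 : Tendsto (fun p : ℕ × ℕ => ‖J (P p.1 - P p.2)‖ ^ 4) atTop (𝓝 0) := by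
    refine tendsto_order.2 ⟨fun a ha => Eventually.of_forall fun p => ha.trans_le (by positivity),
      fun ε hε => ?_⟩
    set δ := ε / (K + 1) with hδ
    have hδ0 : 0 < δ := by positivity
    filter_upwards [hR.eventually (gt_mem_nhds (show 0 < δ * ε by positivity))] with p hp
    have e := pair_sub (hφ (κ p.1)) (hφ (κ p.2)) (P p.1 - P p.2) rfl
    set w : E 3 → ℝ := fun y => φ (κ p.1) y - φ (κ p.2) y with hw
    have hwt : Test Ω w := by
      have := (hφ (κ p.1)).add ((hφ (κ p.2)).smul (-1))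
      convert this using 1
      ext y; simp [hw, sub_eq_add_neg]
    have e4 : ‖J (P p.1 - P p.2)‖ ^ 4 = ∫ x, w x ^ 4 := by
      rw [L4_norm]
      refine integral_congr_ae ?_
      filter_upwards [hJ (P p.1 - P p.2), e] with x h1 h2
      rw [h1, h2]
    have e6 : ∫ x, w x ^ 6 ≤ K := by
      have : ‖J6 (P p.1 - P p.2)‖ ^ 6 = ∫ x, w x ^ 6 := by
        rw [norm_pow_even (by norm_num) (by decide) (by norm_num)]
        refine integral_congr_ae ?_
        filter_upwards [hJ6 (P p.1 - P p.2), e] with x h1 h2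
        rw [h1, h2]
      rw [← this, show (6 : ℕ) = 2 * 3 from rfl, pow_mul, hK]
      gcongr
      calc ‖J6 (P p.1 - P p.2)‖ ^ 2 ≤ (C6 * ‖(P p.1 - P p.2).1.2‖) ^ 2 := by
            gcongr; exact hC6 _
        _ ≤ _ := by rw [mul_pow]; gcongr; exact hsub _ _
    have i2 : Integrable fun x => w x ^ 2 := (hwt.memLp 2).integrable_sq
    have i6 : Integrable fun x => w x ^ 6 := intk hwt (by norm_num)
    have e7 : 2 * δ * ∫ x, w x ^ 4 ≤ (∫ x, w x ^ 2) + δ ^ 2 * ∫ x, w x ^ 6 := by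
      rw [← integral_const_mul, ← integral_const_mul, ← integral_add i2 (i6.const_mul _)]
      refine integral_mono ((int4 hwt).const_mul _) (i2.add (i6.const_mul _)) fun x => ?_
      simp only
      nlinarith [sq_nonneg (w x - δ * w x ^ 3)]
    have e8 : δ * K ≤ ε := by
      rw [hδ, div_mul_eq_mul_div, div_le_iff₀ (by positivity)]; nlinarith
    rw [e4]
    change ∫ x, w x ^ 2 < δ * ε at hp
    have e9 : δ * (2 * ∫ x, w x ^ 4) < δ * (2 * ε) := by
      nlinarith [mul_le_mul_of_nonneg_left e6 (sq_nonneg δ), mul_le_mul_of_nonneg_left e8 hδ0.le]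
    have := lt_of_mul_lt_mul_left e9 hδ0.le
    linarith
  have t1 : Tendsto (fun p : ℕ × ℕ => ‖J (P p.1 - P p.2)‖) atTop (𝓝 0) := by
    have := t4.sqrt.sqrt
    simp only [Real.sqrt_zero] at this
    refine this.congr fun p => ?_
    rw [show (4 : ℕ) = 2 * 2 from rfl, pow_mul, Real.sqrt_sq (by positivity),
      Real.sqrt_sq (by positivity)]
  have a1 : Tendsto (fun p : ℕ × ℕ => p.1) atTop atTop := by
    rw [← prod_atTop_atTop_eq]; exact tendsto_fst
  have a2 : Tendsto (fun p : ℕ × ℕ => p.2) atTop atTop := by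
    rw [← prod_atTop_atTop_eq]; exact tendsto_snd
  have tu : Tendsto (fun n => ‖(P n).1.2‖ ^ 2) atTop (𝓝 l) :=
    (hu2.comp hκ.tendsto_atTop).congr fun n => by
      simp only [Function.comp, hPd]; rw [pair_norm_snd, hD]
  have t2 : Tendsto (fun p : ℕ × ℕ => ‖(P p.1 - P p.2).1.2‖ ^ 2) atTop (𝓝 0) := by
    have t3 := (((tu.comp a1).add (tu.comp a2)).const_mul 2).sub
      (((t1.const_mul 4).const_sub 4).const_mul l)
    rw [show 2 * (l + l) - l * (4 - 4 * 0) = 0 by ring] at t3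
    refine squeeze_zero (fun _ => sq_nonneg _) (fun p => ?_) t3
    have b1 := hI.H hl0 hJ (P p.1 + P p.2)
    have b2 := parallelogram_law_with_norm ℝ (P p.1).1.2 (P p.2).1.2
    have b3 := parallelogram_law_with_norm ℝ (1 : ℝ) 1
    have b4 : 2 ≤ ‖J (P p.1 + P p.2)‖ + ‖J (P p.1 - P p.2)‖ := by
      have := norm_add_le (J (P p.1 + P p.2)) (J (P p.1 - P p.2))
      rw [← map_add, show P p.1 + P p.2 + (P p.1 - P p.2) = (2 : ℝ) • P p.1 by module, map_smul,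
        norm_smul, hJ1] at this
      simpa using this
    have b5 : 4 - 4 * ‖J (P p.1 - P p.2)‖ ≤ ‖J (P p.1 + P p.2)‖ ^ 2 := by
      nlinarith [sq_nonneg (‖J (P p.1 + P p.2)‖ - 2)]
    have b6 := mul_le_mul_of_nonneg_left b5 hl0
    change ‖(P p.1).1.2 - (P p.2).1.2‖ ^ 2 ≤ _
    change l * _ ≤ ‖(P p.1).1.2 + (P p.2).1.2‖ ^ 2 at b1
    simp only [Function.comp]
    nlinarith
  have hc : CauchySeq P := by
    rw [cauchySeq_iff_tendsto_dist_atTop_0]
    have t3 := (t2.const_mul (C2 ^ 2 + 1)).sqrt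
    simp only [mul_zero, Real.sqrt_zero] at t3
    refine squeeze_zero (fun _ => dist_nonneg) (fun p => Real.le_sqrt_of_sq_le ?_) t3
    rw [dist_eq_norm]
    change ‖(P p.1 - P p.2).1‖ ^ 2 ≤ _
    have := hP (P p.1 - P p.2)
    rw [Prod.norm_def]
    rcases max_choice ‖(P p.1 - P p.2).1.1‖ ‖(P p.1 - P p.2).1.2‖ with h | h <;> rw [h] <;>
      nlinarith [sq_nonneg C2, sq_nonneg ‖(P p.1 - P p.2).1.2‖]
  obtain ⟨p, hp⟩ := cauchySeq_tendsto_of_complete hc
  have p1 : ‖J p‖ = 1 := tendsto_nhds_unique ((J.continuous.norm.tendsto p).comp hp)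
    (tendsto_const_nhds.congr fun n => (hJ1 n).symm)
  have p2 : ‖p.1.2‖ ^ 2 = l := tendsto_nhds_unique ((cont_snd.tendsto p).comp hp) tu
  refine ⟨l, lt_of_le_of_ne hl0 fun h0 => ?_, hI, p, p1, p2⟩
  have q2 : ‖p.1.2‖ ^ 2 = 0 := by rw [p2, h0]
  have q1 := hP p
  rw [q2, mul_zero] at q1
  have q3 : p.1.1 = 0 := by simpa using le_antisymm q1 (sq_nonneg _)
  have q4 : p = 0 := Subtype.ext (Prod.ext q3 (by simpa using q2))
  simp [q4] at p1

theorem euler (hJ : ∀ p, J p =ᵐ[volume] p.1.1) (hl : 0 < l) (hI : Ineq Ω l) {p : Hs Ω}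
    (p1 : ‖J p‖ = 1) (p2 : ‖p.1.2‖ ^ 2 = l) (h : Test Ω ψ) :
    ∫ x, inner ℝ (p.1.2 x) (gradient ψ x) = l * ∫ x, p.1.1 x ^ 3 * ψ x := by
  set u : E 3 → ℝ := ⇑p.1.1 with hu
  have iu : Integrable fun x => u x ^ 4 := by
    have := (Lp.memLp (J p)).integrable_norm_rpow (by simp) (by simp)
    refine this.congr ?_
    filter_upwards [hJ p] with x hx
    rw [hx]
    simp [(by decide : Even 4).pow_abs, hu]
  have hm : AEStronglyMeasurable u volume := Lp.aestronglyMeasurable _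
  have hm' := h.cont.aestronglyMeasurable (μ := volume)
  have ij : ∀ i j : ℕ, i + j = 4 → Integrable fun x => u x ^ i * ψ x ^ j := by
    intro i j hij
    refine (iu.add (int4 h)).mono' ((hm.pow i).mul (hm'.pow j)) (Eventually.of_forall fun x => ?_)
    have e1 : |u x| ^ i * |ψ x| ^ j ≤ max |u x| |ψ x| ^ 4 := by
      rw [← hij, pow_add]
      gcongr
      · exact le_max_left _ _
      · exact le_max_right _ _
    have e2 : max |u x| |ψ x| ^ 4 ≤ u x ^ 4 + ψ x ^ 4 := by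
      have : 0 ≤ u x ^ 4 := by positivity
      have : 0 ≤ ψ x ^ 4 := by positivity
      rcases max_choice |u x| |ψ x| with h | h <;> rw [h, (by decide : Even 4).pow_abs] <;> linarith
    simpa [abs_mul, abs_pow] using e1.trans e2
  set a := inner ℝ p.1.2 (pair h).1.2 with ha
  have ea : ∫ x, inner ℝ (p.1.2 x) (gradient ψ x) = a := by
    rw [ha, L2.inner_def]
    refine integral_congr_ae ?_
    filter_upwards [pair_snd h] with x hx
    rw [hx]
  set c := ‖(pair h).1.2‖ ^ 2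
  set m1 := ∫ x, u x ^ 3 * ψ x ^ 1
  set m2 := ∫ x, u x ^ 2 * ψ x ^ 2
  set m3 := ∫ x, u x ^ 1 * ψ x ^ 3
  set m4 := ∫ x, u x ^ 0 * ψ x ^ 4
  have m0 : ∫ x, u x ^ 4 * ψ x ^ 0 = 1 := by
    have := L4_norm (J p)
    rw [p1, one_pow] at this
    rw [this]
    refine integral_congr_ae ?_
    filter_upwards [hJ p] with x hx
    rw [hx]; simp [hu]
  have key : ∀ t : ℝ, 0 ≤ (l + 2 * t * a + t ^ 2 * c) ^ 2
      - l ^ 2 * (1 + 4 * t * m1 + 6 * t ^ 2 * m2 + 4 * t ^ 3 * m3 + t ^ 4 * m4) := by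
    intro t
    have b1 := hI.H hl.le hJ (p + t • pair h)
    have b2 : ‖(p + t • pair h).1.2‖ ^ 2 = l + 2 * t * a + t ^ 2 * c := by
      change ‖p.1.2 + t • (pair h).1.2‖ ^ 2 = _
      rw [norm_add_sq_real, p2, inner_smul_right, norm_smul, mul_pow, Real.norm_eq_abs, sq_abs]
      ring
    have b3 : ‖J (p + t • pair h)‖ ^ 4
        = 1 + 4 * t * m1 + 6 * t ^ 2 * m2 + 4 * t ^ 3 * m3 + t ^ 4 * m4 := by
      rw [L4_norm, ← m0, ← integral_const_mul, ← integral_const_mul, ← integral_const_mul,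
        ← integral_const_mul, ← integral_add, ← integral_add, ← integral_add, ← integral_add]
      · refine integral_congr_ae ?_
        rw [map_add, map_smul]
        filter_upwards [Lp.coeFn_add (J p) (t • J (pair h)), Lp.coeFn_smul t (J (pair h)), hJ p,
          hJ (pair h), pair_fst h] with x h1 h2 h3 h4 h5
        rw [h1, Pi.add_apply, h2, Pi.smul_apply, h3, h4, h5, smul_eq_mul]
        ring
      · exact (((ij 4 0 rfl).add ((ij 3 1 rfl).const_mul _)).add ((ij 2 2 rfl).const_mul _)).add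
          ((ij 1 3 rfl).const_mul _)
      · exact (ij 0 4 rfl).const_mul _
      · exact ((ij 4 0 rfl).add ((ij 3 1 rfl).const_mul _)).add ((ij 2 2 rfl).const_mul _)
      · exact (ij 1 3 rfl).const_mul _
      · exact (ij 4 0 rfl).add ((ij 3 1 rfl).const_mul _)
      · exact (ij 2 2 rfl).const_mul _
      · exact ij 4 0 rfl
      · exact (ij 3 1 rfl).const_mul _
    rw [← b2, ← b3]
    have : (l * ‖J (p + t • pair h)‖ ^ 2) ^ 2 ≤ (‖(p + t • pair h).1.2‖ ^ 2) ^ 2 := by gcongr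
    nlinarith
  have hd : HasDerivAt (fun t : ℝ => (l + 2 * t * a + t ^ 2 * c) ^ 2
      - l ^ 2 * (1 + 4 * t * m1 + 6 * t ^ 2 * m2 + 4 * t ^ 3 * m3 + t ^ 4 * m4))
      (4 * l * a - 4 * l ^ 2 * m1) 0 := by
    have i := hasDerivAt_id (0 : ℝ)
    have := (((((i.const_mul 2).mul_const a).const_add l).add ((i.pow 2).mul_const c)).pow 2).sub
      ((((((((i.const_mul 4).mul_const m1).const_add 1).add
        (((i.pow 2).const_mul 6).mul_const m2)).add (((i.pow 3).const_mul 4).mul_const m3)).add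
          ((i.pow 4).mul_const m4))).const_mul (l ^ 2))
    refine this.congr_deriv ?_
    simp; ring
  have hz := IsLocalMin.hasDerivAt_eq_zero (Eventually.of_forall fun t => by
    simpa using key t) hd
  rw [ea]
  have : l * (a - l * m1) = 0 := by linarith
  have := (mul_eq_zero.1 this).resolve_left hl.ne'
  simp only [m1, pow_one] at this
  linarith

lemma Ineq.scale {c c' : E 3} {R r l' : ℝ} (hr : 0 < r) (h : Ineq (ball c R) l)
    (hl : l' ^ 2 * r ≤ l ^ 2) : Ineq (ball c' (r * R)) l' := by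
  intro φ hφ
  let A : E 3 ≃ₜ E 3 := (Homeomorph.subRight c).trans
    ((Homeomorph.smulOfNeZero r hr.ne').trans (Homeomorph.addLeft c'))
  have hA : ∀ x, A x = c' + r • (x - c) := fun x => rfl
  have hψ : Test (ball c R) (φ ∘ A) := by
    refine ⟨hφ.1.comp ?_, hφ.2.1.comp_homeomorph A, ?_⟩
    · change ContDiff ℝ _ fun x => c' + r • (x - c)
      fun_prop
    · rw [tsupport_comp_eq_preimage]
      intro x hx
      have := hφ.2.2 hx
      rw [hA, mem_ball, dist_eq_norm, add_sub_cancel_left, norm_smul, Real.norm_eq_abs,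
        abs_of_pos hr] at this
      rw [mem_ball, dist_eq_norm]
      exact lt_of_mul_lt_mul_left this hr.le
  have hi : ∀ f : E 3 → ℝ, ∫ x, f (A x) = (r ^ 3)⁻¹ * ∫ x, f x := by
    intro f
    simp only [hA]
    rw [integral_sub_right_eq_self (fun y => f (c' + r • y)) c,
      Measure.integral_comp_smul volume (fun z => f (c' + z)) r, integral_add_left_eq_self,
      abs_of_pos (by positivity)]
    simp
  have hD : Dt (φ ∘ A) = r ^ 2 * ((r ^ 3)⁻¹ * Dt φ) := by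
    unfold Dt
    rw [← hi, ← integral_const_mul]
    congr 1
    ext x
    have d : HasFDerivAt A (r • ContinuousLinearMap.id ℝ (E 3)) x :=
      (((hasFDerivAt_id x).sub_const c).const_smul r).const_add c'
    rw [((hφ.diff (A x)).hasFDerivAt.comp x d).fderiv]
    simp [norm_smul, mul_pow]
  have h1 := h _ hψ
  rw [hD] at h1
  simp only [Function.comp] at h1
  rw [hi fun x => φ x ^ 4] at h1
  have h0 : 0 ≤ ∫ x, φ x ^ 4 := integral_nonneg fun x => by positivity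
  have h2 : (r ^ 2)⁻¹ * (l' ^ 2 * ∫ x, φ x ^ 4) ≤ (r ^ 2)⁻¹ * Dt φ ^ 2 := by
    calc _ = l' ^ 2 * r * ((r ^ 3)⁻¹ * ∫ x, φ x ^ 4) := by field_simp
      _ ≤ l ^ 2 * ((r ^ 3)⁻¹ * ∫ x, φ x ^ 4) := by gcongr
      _ ≤ _ := h1
      _ = _ := by field_simp
  exact le_of_mul_le_mul_left h2 (by positivity)

lemma split2 {B : Set (E 3)} (hB : Disjoint B (closedBall 0 2)) (h : Test (B ∪ ball 0 1) φ) :
    ∃ φa φb, Test B φa ∧ Test (ball 0 1) φb ∧ φ = φa + φb := by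
  let χ : ContDiffBump (0 : E 3) := ⟨1, 2, one_pos, one_lt_two⟩
  refine ⟨fun x => (1 - χ x) * φ x, fun x => χ x * φ x,
    ⟨(contDiff_const.sub χ.contDiff).mul h.1, h.2.1.mul_left, fun x hx => ?_⟩,
    ⟨χ.contDiff.mul h.1, h.2.1.mul_left, fun x hx => ?_⟩, by ext x; simp; ring⟩
  · refine (h.2.2 (tsupport_mul_subset_right hx)).resolve_right fun hx' => ?_
    have : tsupport (fun x => 1 - χ x) ⊆ (ball 0 1)ᶜ := by
      refine closure_minimal (fun y hy hy' => hy ?_) isOpen_ball.isClosed_compl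
      simp [χ.one_of_mem_closedBall (ball_subset_closedBall hy')]
    exact this (tsupport_mul_subset_left hx) hx'
  · refine (h.2.2 (tsupport_mul_subset_right hx)).resolve_left fun hx' => ?_
    have := tsupport_mul_subset_left hx
    rw [χ.tsupport_eq] at this
    exact disjoint_left.1 hB hx' this

lemma Ineq.union {B : Set (E 3)} (hB : Disjoint B (closedBall 0 2)) (h1 : Ineq B l)
    (h2 : Ineq (ball 0 1) l) : Ineq (B ∪ ball 0 1) l := by
  intro φ h
  obtain ⟨a, b, ha, hb, rfl⟩ := split2 hB h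
  have key : ∀ x, (a x = 0 ∧ fderiv ℝ a x = 0) ∨ (b x = 0 ∧ fderiv ℝ b x = 0) := by
    intro x
    by_cases hx : x ∈ B
    · exact Or.inr (hb.zero_off fun hx' => disjoint_left.1 hB hx
        (ball_subset_closedBall.trans (closedBall_subset_closedBall one_le_two) hx'))
    · exact Or.inl (ha.zero_off hx)
  have e1 : ∫ x, (a + b) x ^ 4 = (∫ x, a x ^ 4) + ∫ x, b x ^ 4 := by
    rw [← integral_add (int4 ha) (int4 hb)]
    congr 1
    ext x
    rcases key x with h | h <;> simp [h.1]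
  have e2 : Dt (a + b) = Dt a + Dt b := by
    unfold Dt
    rw [← integral_add (intD ha) (intD hb)]
    congr 1
    ext x
    rw [fderiv_add (ha.diff x) (hb.diff x)]
    rcases key x with h | h <;> simp [h.2]
  rw [e1, e2]
  nlinarith [h1 a ha, h2 b hb, mul_nonneg (Dt_nonneg a) (Dt_nonneg b)]

lemma exists_test : ∃ φ, Test (ball (0 : E 3) 1) φ ∧ ∫ x, φ x ^ 4 ≠ 0 := by
  let χ : ContDiffBump (0 : E 3) := ⟨1 / 4, 1 / 2, by norm_num, by norm_num⟩
  have h : Test (ball (0 : E 3) 1) χ := ⟨χ.contDiff, χ.hasCompactSupport, by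
    rw [χ.tsupport_eq]; exact closedBall_subset_ball (by norm_num [χ])⟩
  refine ⟨χ, h, ne_of_gt ?_⟩
  refine integral_pos_of_integrable_nonneg_nonzero (x := 0) (h.cont.pow 4) (int4 h)
    (fun x => by positivity) ?_
  simp [χ.one_of_mem_closedBall (mem_closedBall_self χ.rIn_pos.le)]

end Pool.Agent.H.MP_eb4995_an
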